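import Pool.Agent.L0h75.PA.Stm

/-! # PA, module DEC: the quadratic characters -/

set_option autoImplicit false

namespace Pool.Agent.L0h91.PA

open Pool.Agent.Y698 Pool.Agent.Y698.SG Pool.Agent.L0h4.TW Pool.Agent.L0h75.EV
open Pool.Agent.L0h75.PA

theorem rec1 {q n : ℕ} (hq : q % 2 = 1) (hn : n % 2 = 1) :
    jacobiSym (sg4 q * q) n = jacobiSym n q := by
  have hno : Odd n := Nat.odd_iff.2 hn
  have hqo : Odd q := Nat.odd_iff.2 hq
  unfold sg4
  split_ifs with h3
  · rw [jacobiSym.mul_left, jacobiSym.at_neg_one hno]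
    have h4 : n % 4 = 1 ∨ n % 4 = 3 := by omega
    rcases h4 with h4 | h4
    · rw [ZMod.χ₄_nat_one_mod_four h4, one_mul]
      exact jacobiSym.quadratic_reciprocity_one_mod_four' hqo h4
    · rw [ZMod.χ₄_nat_three_mod_four h4, jacobiSym.quadratic_reciprocity_three_mod_four h3 h4]
      ring
  · rw [one_mul]
    exact jacobiSym.quadratic_reciprocity_one_mod_four (by omega) hno

theorem prodJ {S : Finset ℕ} (hS : ∀ q ∈ S, q % 2 = 1) {n : ℕ} (hn : n % 2 = 1) :
    jacobiSym (∏ q ∈ S, (sg4 q * (q : ℤ))) n = ∏ q ∈ S, jacobiSym n q := by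
  classical
  induction S using Finset.induction_on with
  | empty => rw [Finset.prod_empty, Finset.prod_empty, jacobiSym.one_left]
  | insert q S hq ih =>
    rw [Finset.prod_insert hq, Finset.prod_insert hq, jacobiSym.mul_left,
      rec1 (hS q (Finset.mem_insert_self _ _)) hn,
      ih fun p hp => hS p (Finset.mem_insert_of_mem hp)]

theorem prod1 {S : Finset ℕ} (hS : ∀ q ∈ S, q ≠ 0) (n : ℤ) :
    jacobiSym n (∏ q ∈ S, q) = ∏ q ∈ S, jacobiSym n q := by
  classical
  induction S using Finset.induction_on with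
  | empty => rw [Finset.prod_empty, Finset.prod_empty, jacobiSym.one_right]
  | insert q S hq ih =>
    have h1 : NeZero q := ⟨hS q (Finset.mem_insert_self _ _)⟩
    have h2 : NeZero (∏ p ∈ S, p) :=
      ⟨Finset.prod_ne_zero_iff.2 fun p hp => hS p (Finset.mem_insert_of_mem hp)⟩
    rw [Finset.prod_insert hq, Finset.prod_insert hq, jacobiSym.mul_right,
      ih fun p hp => hS p (Finset.mem_insert_of_mem hp)]

theorem prod4 {S : Finset ℕ} (hS : ∀ q ∈ S, q % 2 = 1) :
    (∏ q ∈ S, (sg4 q * (q : ℤ))) % 4 = 1 := by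
  classical
  induction S using Finset.induction_on with
  | empty => rw [Finset.prod_empty]; norm_num
  | insert q S hq ih =>
    rw [Finset.prod_insert hq, Int.mul_emod, ih fun p hp => hS p (Finset.mem_insert_of_mem hp)]
    have h1 := hS q (Finset.mem_insert_self _ _)
    unfold sg4
    split_ifs with h3
    · omega
    · omega

theorem prodP (S : Finset ℕ) : (∏ q ∈ S, sg4 q) = 1 ∨ (∏ q ∈ S, sg4 q) = -1 := by
  classical
  induction S using Finset.induction_on with
  | empty => left; rfl
  | insert q S hq ih =>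
    rw [Finset.prod_insert hq]
    have h1 : sg4 q = 1 ∨ sg4 q = -1 := by
      unfold sg4
      split_ifs
      · right; rfl
      · left; rfl
    rcases h1 with h1 | h1 <;> rcases ih with h2 | h2 <;> rw [h1, h2] <;> norm_num

/-- **DEC** -/
theorem t_DEC : S_DEC := by
  classical
  intro D hD h7
  have hD0 : D ≠ 0 := hD.ne_zero
  have hsq : Squarefree D.natAbs := Int.squarefree_natAbs.2 hD
  obtain ⟨S, hSdef⟩ : ∃ S : Finset ℕ, S = D.natAbs.primeFactors.filter (fun p => p ≠ 2) := ⟨_, rfl⟩
  have hS : ∀ q ∈ S, Od q := by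
    intro q hq
    rw [hSdef, Finset.mem_filter] at hq
    have hp := Nat.prime_of_mem_primeFactors hq.1
    refine ⟨hp, ?_, ?_⟩
    · rcases hp.eq_two_or_odd with h | h
      · exact absurd h hq.2
      · exact h
    · rintro rfl
      apply h7
      have := Nat.dvd_of_mem_primeFactors hq.1
      exact Int.natCast_dvd.2 this
  have hSodd : ∀ q ∈ S, q % 2 = 1 := fun q hq => (hS q hq).odd
  have hSne : ∀ q ∈ S, q ≠ 0 := fun q hq => (hS q hq).pr.ne_zero
  -- the absolute value
  obtain ⟨c, hc, hcn⟩ : ∃ c : ℕ, (c = 1 ∨ c = 2) ∧ D.natAbs = c * ∏ q ∈ S, q := by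
    have h1 : ∏ p ∈ D.natAbs.primeFactors, p = D.natAbs := Nat.prod_primeFactors_of_squarefree hsq
    have h2 : (∏ p ∈ D.natAbs.primeFactors.filter (fun p => p ≠ 2), p) *
        (∏ p ∈ D.natAbs.primeFactors.filter (fun p => ¬ p ≠ 2), p) = D.natAbs := by
      rw [Finset.prod_filter_mul_prod_filter_not, h1]
    have h3 : D.natAbs.primeFactors.filter (fun p => ¬ p ≠ 2) =
        if 2 ∈ D.natAbs.primeFactors then {2} else ∅ := by
      ext p
      simp only [Finset.mem_filter, not_not]
      split_ifs with h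
      · rw [Finset.mem_singleton]
        constructor
        · intro h; exact h.2
        · intro h'; rw [h']; exact ⟨h, rfl⟩
      · constructor
        · rintro ⟨h', rfl⟩; exact absurd h' h
        · intro h'; simp at h'
    rw [h3, ← hSdef] at h2
    split_ifs at h2
    · rw [Finset.prod_singleton] at h2
      exact ⟨2, Or.inr rfl, by rw [← h2, mul_comm]⟩
    · rw [Finset.prod_empty] at h2
      exact ⟨1, Or.inl rfl, by rw [← h2, mul_comm]⟩
  obtain ⟨P, hP⟩ : ∃ P : ℤ, P = ∏ q ∈ S, sg4 q := ⟨_, rfl⟩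
  have hPP : P = 1 ∨ P = -1 := by rw [hP]; exact prodP S
  have hP2 : P * P = 1 := by rcases hPP with h | h <;> rw [h] <;> norm_num
  obtain ⟨Ns, hNs⟩ : ∃ N : ℤ, N = ∏ q ∈ S, (sg4 q * (q : ℤ)) := ⟨_, rfl⟩
  have hN4 : Ns % 4 = 1 := by rw [hNs]; exact prod4 hSodd
  have hNsP : Ns = P * ((∏ q ∈ S, q : ℕ) : ℤ) := by
    rw [hNs, hP, Finset.prod_mul_distrib]
    push_cast
    rfl
  have hsgn : D.sign = 1 ∨ D.sign = -1 := by
    rcases lt_or_gt_of_ne hD0 with h | h
    · right; exact Int.sign_eq_neg_one_of_neg h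
    · left; exact Int.sign_eq_one_of_pos h
  have hDt : D = D.sign * P * c * Ns := by
    have h1 : D = D.sign * (D.natAbs : ℤ) := (Int.sign_mul_natAbs D).symm
    have h2 : (D.natAbs : ℤ) = c * ((∏ q ∈ S, q : ℕ) : ℤ) := by
      rw [hcn]
      push_cast
      rfl
    rw [hNsP]
    have h3 : D.sign * P * c * (P * ((∏ q ∈ S, q : ℕ) : ℤ)) =
        (P * P) * (D.sign * (c * ((∏ q ∈ S, q : ℕ) : ℤ))) := by ring
    rw [h3, hP2, one_mul, ← h2]
    exact h1
  have hqch : ∀ n : ℕ, ∏ q ∈ S, qch q n = ((∏ q ∈ S, jacobiSym n q : ℤ) : ℂ) := by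
    intro n
    unfold qch
    push_cast
    rfl
  have hw : D.sign * P = 1 ∨ D.sign * P = -1 := by
    rcases hsgn with h | h <;> rcases hPP with h' | h' <;> rw [h, h'] <;> norm_num
  have hsg : ∀ σ : ℤ, D.sign * P = σ → σ * ∏ q ∈ S, sg4 q = D.sign := by
    intro σ hσ
    rw [← hP, ← hσ, mul_assoc, hP2, mul_one]
  rcases hc with hc | hc
  · subst hc
    rcases hw with hw | hw
    · -- `D = 1` modulo `4`
      refine ⟨fun _ => 1, 0, 1, S, Or.inl ⟨rfl, rfl, rfl⟩, hS, hsg 1 hw, fun n hn => ?_⟩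
      have hD4 : D % 4 = 1 := by
        rw [hDt, hw]
        push_cast
        omega
      rw [hqch, one_mul]
      unfold chiD
      rw [if_pos hD4, hcn, one_mul, prod1 hSne]
    · refine ⟨c4, 2, -1, S, Or.inr (Or.inl ⟨rfl, rfl, rfl⟩), hS, hsg (-1) hw, fun n hn => ?_⟩
      have hDe : D = -1 * Ns := by
        have := hDt
        rw [hw] at this
        push_cast at this
        linarith
      have hD4 : ¬ D % 4 = 1 := by
        rw [hDe]
        omega
      rw [hqch]
      unfold chiD c4
      rw [if_neg hD4]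
      split_ifs with h2
      · have : ZMod.χ₄ ((n : ℤ) : ZMod 4) = 0 := by
          rw [Int.cast_natCast, ZMod.χ₄_nat_eq_if_mod_four, if_pos h2]
        rw [this]
        simp
      · have hn1 : n % 2 = 1 := by omega
        rw [hDe, jacobiSym.mul_left, jacobiSym.at_neg_one (Nat.odd_iff.2 hn1), hNs,
          prodJ hSodd hn1, Int.cast_natCast]
        push_cast
        rfl
  · subst hc
    rcases hw with hw | hw
    · refine ⟨c8, 3, 1, S, Or.inr (Or.inr (Or.inl ⟨rfl, rfl, rfl⟩)), hS, hsg 1 hw,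
        fun n hn => ?_⟩
      have hDe : D = 2 * Ns := by
        have := hDt
        rw [hw] at this
        push_cast at this
        linarith
      have hD4 : ¬ D % 4 = 1 := by
        rw [hDe]
        omega
      rw [hqch]
      unfold chiD c8
      rw [if_neg hD4]
      split_ifs with h2
      · have : ZMod.χ₈ ((n : ℤ) : ZMod 8) = 0 := by
          rw [Int.cast_natCast, ZMod.χ₈_nat_eq_if_mod_eight, if_pos h2]
        rw [this]
        simp
      · have hn1 : n % 2 = 1 := by omega
        rw [hDe, jacobiSym.mul_left, jacobiSym.at_two (Nat.odd_iff.2 hn1), hNs,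
          prodJ hSodd hn1, Int.cast_natCast]
        push_cast
        rfl
    · refine ⟨c8', 3, -1, S, Or.inr (Or.inr (Or.inr ⟨rfl, rfl, rfl⟩)), hS, hsg (-1) hw,
        fun n hn => ?_⟩
      have hDe : D = -2 * Ns := by
        have := hDt
        rw [hw] at this
        push_cast at this
        linarith
      have hD4 : ¬ D % 4 = 1 := by
        rw [hDe]
        omega
      rw [hqch]
      unfold chiD c8'
      rw [if_neg hD4]
      split_ifs with h2
      · have : ZMod.χ₈' ((n : ℤ) : ZMod 8) = 0 := by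
          rw [Int.cast_natCast, ZMod.χ₈'_nat_eq_if_mod_eight, if_pos h2]
        rw [this]
        simp
      · have hn1 : n % 2 = 1 := by omega
        rw [hDe, jacobiSym.mul_left, jacobiSym.at_neg_two (Nat.odd_iff.2 hn1), hNs,
          prodJ hSodd hn1, Int.cast_natCast]
        push_cast
        rfl

end Pool.Agent.L0h91.PA
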