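import Pool.Agent.L0h75.PA.Stm

/-! # PA, module SUM: the sum over the ideals as a sum over the elements -/

set_option autoImplicit false

open scoped Classical

namespace Pool.Agent.L0h91.PA

open Pool.Agent.Y698 Pool.Agent.Y698.SG Pool.Agent.L0h4.TW Pool.Agent.L0h75.EV
open Pool.Agent.W192.HK Pool.Agent.TH936.AC Pool.Agent.TH936.AW
open Pool.Agent.L0h75.PA

/-- the element with the coordinates `v` -/
noncomputable def elt (v : ℤ × ℤ) : RR := (v.1 : RR) + (v.2 : RR) * aR

theorem elt_coe (v : ℤ × ℤ) : ((elt v : RR) : ℂ) = v.1 + v.2 * al := by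
  unfold elt
  push_cast
  rw [aR_coe]

theorem elt_cXY (v : ℤ × ℤ) : cX (elt v) = v.1 ∧ cY (elt v) = v.2 := cXY_of (elt_coe v)

theorem elt_co (g : RR) : elt (cX g, cY g) = g := by
  apply RR_ext
  · exact (elt_cXY _).1
  · exact (elt_cXY _).2

theorem nR_elt (v : ℤ × ℤ) : nR (elt v) = v.1 ^ 2 + v.1 * v.2 + 2 * v.2 ^ 2 :=
  nR_of (elt_coe v)

theorem elt_zero : elt (0, 0) = 0 := by
  unfold elt
  simp

theorem nR_pos' {g : RR} (hg : g ≠ 0) : 0 < nR g := by
  have h1 := nR_nonneg g
  rcases h1.eq_or_lt with h | h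
  · exfalso
    apply hg
    have h2 := normSq_coe g
    rw [← h] at h2
    push_cast at h2
    exact Subtype.ext (Complex.normSq_eq_zero.1 h2)
  · exact h

theorem e7_jac (v : ℤ × ℤ) : e7 (elt v) = ((jacobiSym (v.1 + 4 * v.2) 7 : ℤ) : ℂ) := by
  have : Fact (Nat.Prime 7) := ⟨by norm_num⟩
  unfold e7
  rw [r7_apply, (elt_cXY v).1, (elt_cXY v).2, ← jacobiSym.legendreSym.to_jacobiSym]
  unfold legendreSym
  congr 3
  push_cast
  ring

theorem e7_pow (g : RR) {n : ℕ} (hn : Odd n) : e7 g ^ n = e7 g := by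
  obtain ⟨k, rfl⟩ := hn
  by_cases hg : g ∈ sp fR
  · have := e7_eq_zero.2 hg
    rw [this]
    exact zero_pow (by omega)
  · rw [pow_succ, pow_mul, e7_sq hg, one_pow, one_mul]

theorem jac_zero : jacobiSym (0 + 4 * 0) 7 = 0 := by
  norm_num

/-- the term as a function of the ideal -/
theorem term_eq {m : ℕ} (hm : 1 ≤ m) {X : ℤ → ℂ} {D : ℤ}
    (hX : ∀ n : ℕ, 0 < n → X n = (chiD D n : ℂ)) (z : ℂ) (v : ℤ × ℤ) :
    term D m z v = psiM m (sp (elt v)) * X (nI (sp (elt v))) *
      (nm (sp (elt v)) : ℂ) ^ (-z) := by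
  have hodd : Odd (2 * m - 1) := ⟨m - 1, by omega⟩
  have hpsi : psiM m (sp (elt v)) = e7 (elt v) * ((elt v : RR) : ℂ) ^ (2 * m - 1) := by
    unfold psiM
    rw [psi_sp, mul_pow, e7_pow _ hodd]
  by_cases h0 : elt v = 0
  · have h1 : v = (0, 0) := by
      have h2 := elt_cXY v
      rw [h0] at h2
      rw [cXY_zero.1, cXY_zero.2] at h2
      exact Prod.ext h2.1.symm h2.2.symm
    have h3 : term D m z v = 0 := by
      rw [h1]
      unfold term
      rw [jac_zero]
      simp
    have h4 : psiM m (sp (elt v)) = 0 := by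
      rw [hpsi, h0]
      have : e7 0 = 0 := e7_eq_zero.2 (Submodule.zero_mem _)
      rw [this, zero_mul]
    rw [h3, h4, zero_mul, zero_mul]
  · have hnn : nI (sp (elt v)) = nn v := by
      rw [nI_sp, nR_elt]
      rfl
    have hpos : 0 < nI (sp (elt v)) := by
      rw [nI_sp]
      exact Int.natAbs_pos.2 (nR_pos' h0).ne'
    rw [hpsi, nm_nI, hX _ hpos, hnn]
    unfold term
    rw [e7_jac, elt_coe]
    have hal : al = (1 + Complex.I * (Real.sqrt 7 : ℂ)) / 2 := by
      unfold al s7
      ring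
    rw [hal]
    push_cast
    ring

/-- **SUM** -/
theorem t_SUM : S_SUM := by
  intro m hm X D hX z A hA
  set f : Ideal RR → ℂ := fun I => psiM m I * X (nI I) * (nm I : ℂ) ^ (-z) with hf
  have hterm : ∀ v, term D m z v = f (sp (elt v)) := fun v => term_eq hm hX z v
  obtain ⟨gen, hgen⟩ : ∃ gen : Ideal RR → RR, ∀ I, sp (gen I) = I :=
    ⟨fun I => Submodule.IsPrincipal.generator I, fun I =>
      Submodule.IsPrincipal.span_singleton_generator I⟩
  set p1 : Ideal RR → ℤ × ℤ := fun I => (cX (gen I), cY (gen I)) with hp1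
  set p2 : Ideal RR → ℤ × ℤ := fun I => (cX (-gen I), cY (-gen I)) with hp2
  have e1 : ∀ I, elt (p1 I) = gen I := fun I => elt_co _
  have e2 : ∀ I, elt (p2 I) = -gen I := fun I => elt_co _
  have sneg : ∀ g : RR, sp (-g) = sp g := fun g => Ideal.span_singleton_neg g
  have i1 : Function.Injective p1 := by
    intro I J h
    have := congrArg elt h
    rw [e1, e1] at this
    rw [← hgen I, ← hgen J, this]
  have i2 : Function.Injective p2 := by
    intro I J h
    have := congrArg elt h
    rw [e2, e2] at this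
    rw [← hgen I, ← hgen J, neg_injective this]
  -- the two halves
  have s1 : HasSum (fun v => if v ∈ Set.range p1 then term D m z v else 0) A := by
    rw [← i1.hasSum_iff]
    · have e : (fun v => if v ∈ Set.range p1 then term D m z v else 0) ∘ p1 = f := by
        funext I
        simp only [Function.comp]
        rw [if_pos ⟨I, rfl⟩, hterm, e1, hgen]
      rw [e]
      exact hA
    · intro v hv
      exact if_neg hv
  have s2 : HasSum (fun v => if v ∈ Set.range p2 then term D m z v else 0) A := by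
    rw [← i2.hasSum_iff]
    · have e : (fun v => if v ∈ Set.range p2 then term D m z v else 0) ∘ p2 = f := by
        funext I
        simp only [Function.comp]
        rw [if_pos ⟨I, rfl⟩, hterm, e2, sneg, hgen]
      rw [e]
      exact hA
    · intro v hv
      exact if_neg hv
  have h2 : (2 : ℂ) * A = A + A := by ring
  rw [h2]
  have s3 := s1.add s2
  suffices e : (fun v => (if v ∈ Set.range p1 then term D m z v else 0) +
      if v ∈ Set.range p2 then term D m z v else 0) = term D m z by
    rw [e] at s3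
    exact s3
  funext v
  have hcov : v ∈ Set.range p1 ∨ v ∈ Set.range p2 := by
    rcases sp_eq (hgen (sp (elt v))) with h | h
    · left
      refine ⟨sp (elt v), ?_⟩
      show (cX (gen (sp (elt v))), cY (gen (sp (elt v)))) = v
      rw [h, (elt_cXY v).1, (elt_cXY v).2]
    · right
      refine ⟨sp (elt v), ?_⟩
      show (cX (-gen (sp (elt v))), cY (-gen (sp (elt v)))) = v
      rw [h, neg_neg, (elt_cXY v).1, (elt_cXY v).2]
  have hboth : v ∈ Set.range p1 → v ∈ Set.range p2 → term D m z v = 0 := by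
    rintro ⟨I, hI⟩ ⟨J, hJ⟩
    have h3 : gen I = -gen J := by rw [← e1, ← e2, hI, hJ]
    have h4 : I = J := by
      rw [← hgen I, ← hgen J, h3, sneg]
    rw [h4] at h3
    have h5 : gen J = 0 := self_eq_neg.1 h3
    have h6 : elt v = 0 := by
      rw [← hJ, e2, h5, neg_zero]
    have h7 : v = (0, 0) := by
      have h8 := elt_cXY v
      rw [h6, cXY_zero.1, cXY_zero.2] at h8
      exact Prod.ext h8.1.symm h8.2.symm
    rw [h7]
    unfold term
    rw [jac_zero]
    simp
  by_cases a1 : v ∈ Set.range p1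
  · by_cases a2 : v ∈ Set.range p2
    · rw [if_pos a1, if_pos a2, hboth a1 a2, add_zero]
    · rw [if_pos a1, if_neg a2, add_zero]
  · have a2 : v ∈ Set.range p2 := hcov.resolve_left a1
    rw [if_neg a1, if_pos a2, zero_add]

end Pool.Agent.L0h91.PA
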