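import Pool.Agent.L0h75.PA.Stm

/-! # PA, module UNI: the constant of the functional equation does not depend on the choices -/

set_option autoImplicit false

namespace Pool.Agent.L0h91.PA

open Pool.Agent.Y698 Pool.Agent.Y698.SG Pool.Agent.L0h4.TW Pool.Agent.L0h75.EV
open Pool.Agent.W192.HK Pool.Agent.TH936.AC Pool.Agent.TH936.AW
open Pool.Agent.W192.CM (ez)
open Pool.Agent.W311.CM (ez_add ez_zero ez_one_iff)
open Pool.Agent.L0h75.PA

/-- the sum over a system of representatives -/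
theorem sum_two {R : Subring ℂ} {Q : Ideal R} {T T' : Finset R} (hT : Rp Q ⊤ T)
    (hT' : Rp Q ⊤ T') (F : R → ℂ) (hF : ∀ x y, x - y ∈ Q → F x = F y) :
    ∑ x ∈ T, F x = ∑ x ∈ T', F x := by
  refine Finset.sum_bij (fun x _ => (hT'.uni x).choose) ?_ ?_ ?_ ?_
  · intro x _
    exact (hT'.uni x).choose_spec.1.1
  · intro x hx y hy hxy
    have h1 := (hT'.uni x).choose_spec.1.2
    have h2 := (hT'.uni y).choose_spec.1.2
    rw [← hxy] at h2
    obtain ⟨z, -, hz⟩ := hT.uni x
    rw [hz x ⟨hx, by simp⟩, hz y ⟨hy, ?_⟩]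
    have := Q.sub_mem h1 h2
    simpa using this
  · intro y hy
    obtain ⟨x, ⟨hx, hx'⟩, -⟩ := hT.uni y
    refine ⟨x, hx, ?_⟩
    have h1 := (hT'.uni x).choose_spec.2 y ⟨hy, by
      have := Q.neg_mem hx'
      simpa using this⟩
    exact h1.symm
  · intro x _
    exact hF _ _ (hT'.uni x).choose_spec.1.2

/-- the negative representatives -/
theorem rp_neg {R : Subring ℂ} {Q : Ideal R} {T : Finset R} (hT : Rp Q ⊤ T) :
    Rp Q ⊤ (T.map (Equiv.neg R).toEmbedding) := by
  refine ⟨fun x _ => Submodule.mem_top, fun α => ?_⟩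
  obtain ⟨x, ⟨hx, hx'⟩, hu⟩ := hT.uni (-α)
  refine ⟨-x, ⟨?_, ?_⟩, ?_⟩
  · rw [Finset.mem_map]
    exact ⟨x, hx, rfl⟩
  · have := Q.neg_mem hx'
    have e : α - -x = -(-α - x) := by ring
    rw [e]
    exact this
  · rintro y ⟨hy, hy'⟩
    rw [Finset.mem_map] at hy
    obtain ⟨z, hz, rfl⟩ := hy
    have e1 : (Equiv.neg R).toEmbedding z = -z := rfl
    rw [e1] at hy' ⊢
    rw [hu z ⟨hz, ?_⟩]
    have := Q.neg_mem hy'
    have e : -α - z = -(α - -z) := by ring
    rw [e]
    exact this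

/-- **UNI** -/
theorem t_UNI : S_UNI := by
  intro m hm Q θ hc μ μ' T T' hs hs'
  obtain ⟨n, hn⟩ : ∃ n, n = 2 * m - 1 := ⟨_, rfl⟩
  have hodd : Odd n := ⟨m - 1, by omega⟩
  rw [← hn] at hc
  have hQ : Q = sp μ := by
    have := hs.prn
    rwa [Ideal.mul_top] at this
  have hQ' : Q = sp μ' := by
    have := hs'.prn
    rwa [Ideal.mul_top] at this
  have hμ0 : μ ≠ 0 := by
    rintro rfl
    apply hc.ne
    rw [hQ]
    exact Ideal.span_singleton_eq_bot.2 rfl
  have hμc : (μ : ℂ) ≠ 0 := fun h => hμ0 (Subtype.ext h)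
  have hQt : Q ≠ ⊤ := by
    intro ht
    have h1 := hc.princ (-1) (by simp) (by rw [ht]; exact Submodule.mem_top)
    have h2 := hc.princ 1 one_ne_zero (by rw [ht]; exact Submodule.mem_top)
    have h3 : sp (-1 : RR) = sp (1 : RR) := Ideal.span_singleton_neg 1
    rw [h3, h2] at h1
    push_cast at h1
    rw [hodd.neg_one_pow, one_pow] at h1
    norm_num at h1
  obtain ⟨-, -, -, -, hper⟩ := hfp RR al qr n Q θ hc hQt
  -- the summand is periodic
  have hH : ∀ x y : RR, x - y ∈ Q → fp n θ x * ez al ((x : ℂ) / (μ : ℂ)) =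
      fp n θ y * ez al ((y : ℂ) / (μ : ℂ)) := by
    intro x y hxy
    rw [hper x y hxy]
    congr 1
    rw [hQ] at hxy
    obtain ⟨c, hcx⟩ := Ideal.mem_span_singleton'.1 hxy
    have e1 : (x : ℂ) / (μ : ℂ) = (y : ℂ) / (μ : ℂ) + (c : ℂ) := by
      have h1 : x = y + c * μ := by rw [hcx]; ring
      rw [h1]
      push_cast
      field_simp
    rw [e1, ez_add, Pool.Agent.W636.HK.ez_R qr, mul_one]
  have hneg : ∀ x : RR, fp n θ (-x) = -fp n θ x := by
    intro x
    unfold fp
    rw [show sp (-x) = sp x from Ideal.span_singleton_neg x]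
    push_cast
    rw [hodd.neg_pow, div_neg]
  unfold Wc
  rw [← hn]
  rcases sp_eq (hQ.symm.trans hQ') with h | h
  · -- the same generator
    subst h
    have : gT al n θ μ T = gT al n θ μ T' := sum_two hs.rp hs'.rp _ hH
    rw [this]
  · -- the negative generator
    have h' : μ' = -μ := by rw [h, neg_neg]
    subst h'
    have h1 : gT al n θ (-μ) T' = -gT al n θ μ T := by
      have h2 := sum_two hs.rp (rp_neg hs'.rp) _ hH
      have h3 : gT al n θ μ T = ∑ x ∈ T'.map (Equiv.neg RR).toEmbedding,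
        fp n θ x * ez al ((x : ℂ) / (μ : ℂ)) := h2
      rw [h3, Finset.sum_map]
      unfold gT
      rw [← Finset.sum_neg_distrib]
      refine Finset.sum_congr rfl fun x _ => ?_
      have e1 : (Equiv.neg RR).toEmbedding x = -x := rfl
      rw [e1, hneg]
      push_cast
      rw [neg_div, div_neg]
      ring
    rw [h1]
    push_cast
    rw [hodd.neg_pow]
    ring

end Pool.Agent.L0h91.PA
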